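import Pool.Agent.H624.WS.Stm

set_option autoImplicit false

open MeasureTheory Set Filter Topology
open scoped ENNReal

namespace Pool.Agent.H127.WS

open Pool.Agent.H624.WS

/-- convergence along the range of a strictly increasing sequence -/
theorem tendsto_range {f : ℕ → ℕ} (hf : StrictMono f) (g : ℕ → ℝ) (l : ℝ) :
    Tendsto g (atTop ⊓ 𝓟 (range f)) (𝓝 l) ↔ Tendsto (fun n => g (f n)) atTop (𝓝 l) := by
  have h1 : comap f atTop = atTop :=
    comap_embedding_atTop (fun a b => hf.le_iff_le) (fun c => ⟨c, hf.id_le c⟩)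
  rw [← Filter.map_comap, h1, tendsto_map'_iff]
  rfl

/-- the enumeration of an infinite set -/
theorem enum {M : Set ℕ} (hM : M.Infinite) : ∃ e : ℕ → ℕ, StrictMono e ∧ range e = M := by
  classical
  refine ⟨Nat.nth (· ∈ M), Nat.nth_strictMono hM, ?_⟩
  exact Nat.range_nth_of_infinite hM

/-- the family of the sets along which the sequence converges -/
def Dc {X : Type} [NormedAddCommGroup X] [NormedSpace ℝ X] (y : ℕ → (X →L[ℝ] ℝ)) : Set (Set ℕ) :=
  {M | M.Infinite ∧ ∀ x, ∃ l : ℝ, Tendsto (fun n => y n x) (atTop ⊓ 𝓟 M) (𝓝 l)}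

theorem openDense {X : Type} [NormedAddCommGroup X] [NormedSpace ℝ X]
    (hX : DualBallSeqCompact X) (y : ℕ → (X →L[ℝ] ℝ)) (hy : ∀ n, ‖y n‖ ≤ 1) :
    OpenDense (Dc y) := by
  refine ⟨fun M hM => hM.1, ?_, ?_⟩
  · rintro M ⟨-, hM⟩ N hN hNM
    refine ⟨hN, fun x => ?_⟩
    obtain ⟨l, hl⟩ := hM x
    refine ⟨l, hl.mono_left ?_⟩
    refine le_inf inf_le_left ?_
    rw [le_principal_iff, mem_inf_principal]
    have h1 : ∀ᶠ n in (atTop : Filter ℕ), n ∉ N \ M := by
      rw [← Nat.cofinite_eq_atTop]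
      exact hNM.compl_mem_cofinite
    filter_upwards [h1] with n hn hnN
    by_contra hnM
    exact hn ⟨hnN, hnM⟩
  · intro M hM
    obtain ⟨e, he, heM⟩ := enum hM
    obtain ⟨ψ, -, k, hk, hψ⟩ := hX (fun j => y (e j)) (fun j => hy _)
    refine ⟨range (fun n => e (k n)), ⟨?_, fun x => ⟨ψ x, ?_⟩⟩, ?_⟩
    · exact infinite_range_of_injective (he.comp hk).injective
    · exact (tendsto_range (he.comp hk) _ _).2 (hψ x)
    · rintro _ ⟨n, rfl⟩
      rw [← heM]
      exact mem_range_self _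

theorem sSEL : S_SEL := by
  intro X _ _ hX I hI y hy
  by_cases hne : Nonempty I
  · obtain ⟨i₀⟩ := hne
    have hnon : (⋂₀ (range fun i => Dc (y i))).Nonempty := by
      by_contra hcon
      rw [not_nonempty_iff_eq_empty] at hcon
      have h1 : distributivityNumber ≤ Cardinal.mk (range fun i => Dc (y i)) := by
        refine csInf_le' ⟨range fun i => Dc (y i), rfl, ?_, hcon⟩
        rintro _ ⟨i, rfl⟩
        exact openDense hX (y i) (hy i)
      exact absurd (h1.trans Cardinal.mk_range_le) (not_le.2 hI)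
    obtain ⟨M, hM⟩ := hnon
    have hM' : ∀ i, M ∈ Dc (y i) := fun i => hM _ (mem_range_self i)
    obtain ⟨k, hk, hkM⟩ := enum (hM' i₀).1
    refine ⟨k, hk, fun i x => ?_⟩
    obtain ⟨l, hl⟩ := (hM' i).2 x
    refine ⟨l, ?_⟩
    rw [← hkM, tendsto_range hk] at hl
    exact hl
  · exact ⟨id, strictMono_id, fun i => absurd ⟨i⟩ hne⟩

end Pool.Agent.H127.WS
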